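import Pool.Agent.Run7.h460.BB.Lift

set_option autoImplicit false
set_option linter.unusedSectionVars false
set_option linter.unusedVariables false

/-!
# Existence of Bloch-Beilinson filtrations: the equivalence
-/

open CategoryTheory AlgebraicGeometry TensorProduct

universe v

namespace Run7.h460.BB

open Pool.Agent.H914 Pool.Agent.H914.VarClass Pool.Agent.H914.VarClass.Obj
open Pool.Agent.W492.BB hiding IsBB

variable {𝒱 : VarClass ℂ} {C : TheoryData.{0, v, 0} 𝒱 ℚ} {H : WeilTheoryData.{0, v, 0} C ℚ}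
  [hC : IsChow C] [hH : IsWeil H] {J : AJData H} [hJ : IsAJ J]

include hC hH in
/-- A filtration of the Chow groups of `P` gives the vanishing. -/
lemma vanishing_of_local {P : 𝒱.Obj} {F : Filtration C} (hF : IsLocalBB J P F) :
    Vanishing J P := by
  intro j m h2 hjm z Γ Δ hz hΓ hΔ
  have key : ∀ n, n + 1 ≤ j → F.Mem m (n + 2) (run Γ z n) := by
    intro n
    induction n with
    | zero => intro _; exact (hF.two m z).2 hz
    | succ n ih =>
      intro hn
      obtain ⟨h3, h4⟩ := hΓ (n + 2) (by omega) (by omega)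
      exact hF.graded m (n + 2) (Γ (n + 2)) h3 h4 _ (ih (by omega))
  have h3 := key (j - 1) (by omega)
  have e : j - 1 + 2 = j + 1 := by omega
  rw [e] at h3
  exact hF.top j _ (hF.corr m j (j + 1) Δ hΔ _ h3)

include hC hH hJ in
/-- The vanishing for sufficiently many varieties gives Bloch-Beilinson filtrations. -/
lemma global_of_vanishing (hT : ∃ T : 𝒱.Obj, T.dim = 1) {S : Set 𝒱.Obj}
    (hS : ∀ X, ∃ P ∈ S, Dominates C P X) (hv : ∀ P ∈ S, Vanishing J P) :
    IsBB J (fil J) := by
  refine fil_bb fun X j x hx => ?_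
  match j, hx with
  | 0, hx => exact hom_zero (J := J) hx
  | 1, hx => exact hJ.divisor x ((stp_two X 1 x).1 hx)
  | j + 2, hx =>
    have h1 : stp J X (j + 2) (j + 2 + 1) ≤ ⊥ := by
      refine Submodule.span_le.2 ?_
      rintro x ⟨m, hm⟩
      show x = 0
      have hjm : j + 2 < m := hm.lt
      obtain ⟨Q, hQ⟩ := transport (J := J) hT hm
      obtain ⟨P, hPS, hP⟩ := hS (Q.prod X)
      obtain ⟨lam, rho, g1, g2, g3, g4⟩ := hQ P (dom_trans hP (dom_fst Q X))
      obtain ⟨th, t1, t2⟩ := pull_exists H (dom_trans hP (dom_snd Q X))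
      have r1 : Realised H P X (((j + 2 : ℕ) : ℤ) - m) (C.act rho) (H.act (H.cl rho)) :=
        Realised.of (deg_cast (by ring) g2)
      have r3 : Realised H X P 0 (C.act th) (H.act (H.cl th)) :=
        Realised.of (deg_cast (by ring) t1)
      obtain ⟨Θ, s1, s2, s3⟩ := r1.comp r3
      obtain ⟨-, z', Γ', u1, u2, u3⟩ := ev_run g4
      have h4 : C.act Θ (C.act lam x) = C.act th x := by
        have h5 : C.act Θ (C.act lam x) = C.act th (C.act rho (C.act lam x)) := s2 _
        rw [h5, g3]
      apply t2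
      rw [← h4, ← u3]
      exact hv P hPS (j + 2) m (by omega) hjm.le z' Γ' Θ u1 (fun ν h5 h6 => u2 ν h5 (by omega))
        (deg_cast (by ring) s1)
    exact (Submodule.mem_bot ℚ).1 (h1 hx)

include hC hH hJ in
/-- The equivalence of the existence of simultaneous Bloch-Beilinson filtrations, of the existence for
one variety at a time, and of the vanishing condition. -/
theorem main (hT : ∃ T : 𝒱.Obj, T.dim = 1) (S : Set 𝒱.Obj)
    (hS : ∀ X, ∃ P ∈ S, Dominates C P X) :
    List.TFAE [∃ F : Filtration C, IsBB J F,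
      ∀ P ∈ S, ∃ F : Filtration C, IsLocalBB J P F,
      ∀ P ∈ S, Vanishing J P] := by
  tfae_have 1 → 2 := by
    rintro ⟨F, hF⟩ P -
    refine ⟨F, ?_⟩
    exact {
      zero := hF.zero P
      one := hF.one P
      two := hF.two P
      top := hF.top P
      corr := hF.corr P P
      graded := fun j ν Γ hΓ => hF.graded P P j j ν Γ (deg_cast (by ring) hΓ) }
  tfae_have 2 → 3 := fun h P hP => by
    obtain ⟨F, hF⟩ := h P hP
    exact vanishing_of_local hF
  tfae_have 3 → 1 := fun h => ⟨fil J, global_of_vanishing hT hS h⟩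
  tfae_finish

end Run7.h460.BB
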