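import Pool.Agent.W492.BB.Real

set_option autoImplicit false

/-!
# Bloch-Beilinson filtrations with the Abel-Jacobi kernel in the second step: definitions
-/

open CategoryTheory AlgebraicGeometry TensorProduct

universe v

namespace Run7.h460.BB

open Pool.Agent.H914 Pool.Agent.H914.VarClass Pool.Agent.H914.VarClass.Obj
open Pool.Agent.W492.BB hiding IsBB

variable {𝒱 : VarClass ℂ} {C : TheoryData.{0, v, 0} 𝒱 ℚ} (H : WeilTheoryData.{0, v, 0} C ℚ)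

/-- The class `x` of codimension `j` is homologically trivial. -/
def HomTriv {X : 𝒱.Obj} (j : ℕ) (x : C.A X) : Prop := C.Deg j x ∧ H.cl x = 0

/-- The cohomology with complex coefficients `H(X, ℂ) = ℂ ⊗ H(X, ℚ)`. -/
def HC (X : 𝒱.Obj) : Type v := ℂ ⊗[ℚ] H.A X

noncomputable instance (X : 𝒱.Obj) : AddCommGroup (HC H X) :=
  (inferInstance : AddCommGroup (ℂ ⊗[ℚ] H.A X))

noncomputable instance (X : 𝒱.Obj) : Module ℂ (HC H X) :=
  (inferInstance : Module ℂ (ℂ ⊗[ℚ] H.A X))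

/-- The map `H(X, ℚ) → H(X, ℂ)`. -/
noncomputable def incl {X : 𝒱.Obj} (a : H.A X) : HC H X := (1 : ℂ) ⊗ₜ[ℚ] a

/-- The action `[Γ]_* : H(X, ℂ) → H(Y, ℂ)`. -/
noncomputable def actC {X Y : 𝒱.Obj} (Γ : C.A (X.prod Y)) : HC H X →ₗ[ℂ] HC H Y :=
  (H.actL (H.cl Γ)).baseChange ℂ

/-- `H^m(X, ℚ)` as a subgroup of `H(X, ℂ)`. -/
noncomputable def rat (X : 𝒱.Obj) (m : ℤ) : AddSubgroup (HC H X) :=
  AddSubgroup.closure {b | ∃ a, H.Deg m a ∧ b = incl H a}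

/-- `H^m(X, ℂ)`. -/
noncomputable def grC (X : 𝒱.Obj) (m : ℤ) : Submodule ℂ (HC H X) :=
  Submodule.span ℂ (rat H X m)

/-- `F^j H^(2j-1)(X, ℂ) + H^(2j-1)(X, ℚ)`, for the given subspace `F^j H^(2j-1)(X, ℂ)`. -/
noncomputable def lat (X : 𝒱.Obj) (j : ℕ) (F : Submodule ℂ (HC H X)) : AddSubgroup (HC H X) :=
  F.toAddSubgroup ⊔ rat H X (2 * j - 1)

/-- The quotient `H(X, ℂ) / (F^j H^(2j-1)(X, ℂ) + H^(2j-1)(X, ℚ))`. It contains the intermediate
Jacobian with rational coefficients `H^(2j-1)(X, ℂ) / (F^j H^(2j-1)(X, ℂ) + H^(2j-1)(X, ℚ))`. -/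
def Jac (X : 𝒱.Obj) (j : ℕ) (F : Submodule ℂ (HC H X)) : Type v := HC H X ⧸ lat H X j F

noncomputable instance (X : 𝒱.Obj) (j : ℕ) (F : Submodule ℂ (HC H X)) :
    AddCommGroup (Jac H X j F) :=
  (inferInstance : AddCommGroup (HC H X ⧸ lat H X j F))

/-- The class in the quotient. -/
noncomputable def toJac {X : 𝒱.Obj} (j : ℕ) (F : Submodule ℂ (HC H X)) (a : HC H X) :
    Jac H X j F := (QuotientAddGroup.mk a : HC H X ⧸ lat H X j F)

/-- The data of the Abel-Jacobi maps: the steps `Fil X j = F^j H^(2j-1)(X, ℂ)` of the Hodge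
filtrations, and the Abel-Jacobi maps, which are of interest for the homologically trivial classes of
codimension `j` only. -/
structure AJData where
  /-- the step `F^j H^(2j-1)(X, ℂ)` of the Hodge filtration -/
  Fil : ∀ (X : 𝒱.Obj) (_ : ℕ), Submodule ℂ (HC H X)
  /-- the Abel-Jacobi map -/
  aj : ∀ (X : 𝒱.Obj) (j : ℕ), C.A X → Jac H X j (Fil X j)

variable {H}

/-- The class `a ∈ H^(2j-1)(X, ℂ)` represents the Abel-Jacobi image of the homologically trivial class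
`x` of codimension `j`. -/
def AJData.Rep (J : AJData H) {X : 𝒱.Obj} (j : ℕ) (x : C.A X) (a : HC H X) : Prop :=
  HomTriv H j x ∧ a ∈ grC H X (2 * j - 1) ∧ J.aj X j x = toJac H j (J.Fil X j) a

/-- The class `x` of codimension `j` is in the kernel of the Abel-Jacobi map. -/
def AJData.Ker (J : AJData H) {X : 𝒱.Obj} (j : ℕ) (x : C.A X) : Prop :=
  HomTriv H j x ∧ J.aj X j x = 0

/-- The formal properties of the Abel-Jacobi maps: they are additive on the homologically trivial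
classes, the values are in the intermediate Jacobians, the correspondences `Γ` respect `F^j H^(2j-1)`,
`AJ(Γ_* x) = [Γ]_* AJ(x)`, and the Abel-Jacobi map is injective on divisors. Moreover `CH^0(X) = ℚ` and
`H(X) ≠ 0`. -/
class IsAJ (J : AJData H) : Prop where
  add : ∀ {X : 𝒱.Obj} {j : ℕ} {x y : C.A X}, HomTriv H j x → HomTriv H j y →
    J.aj X j (x + y) = J.aj X j x + J.aj X j y
  exists_rep : ∀ {X : 𝒱.Obj} {j : ℕ} {x : C.A X}, HomTriv H j x → ∃ a, J.Rep j x a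
  fil_le : ∀ (X : 𝒱.Obj) (j : ℕ), J.Fil X j ≤ grC H X (2 * j - 1)
  hodge : ∀ {X Y : 𝒱.Obj} {j i : ℕ} {Γ : C.A (X.prod Y)}, C.Deg (X.dim + i - j) Γ →
    ∀ {a : HC H X}, a ∈ J.Fil X j → actC H Γ a ∈ J.Fil Y i
  natural : ∀ {X Y : 𝒱.Obj} {j i : ℕ} {Γ : C.A (X.prod Y)}, C.Deg (X.dim + i - j) Γ →
    ∀ {x : C.A X} {a : HC H X}, J.Rep j x a → J.Rep i (C.act Γ x) (actC H Γ a)
  divisor : ∀ {X : 𝒱.Obj} (x : C.A X), J.Ker 1 x → x = 0
  chow_zero : ∀ {X : 𝒱.Obj} (x : C.A X), C.Deg 0 x → ∃ q : ℚ, x = q • (1 : C.A X)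
  one_ne : ∀ X : 𝒱.Obj, (1 : H.A X) ≠ 0

/-- The filtrations `F^• CH^j(X)` are a Bloch-Beilinson filtration, that is, for all varieties `X`, `Y`:
1. `F^0 = CH^j(X)`, `F^1 = CH^j(X)_hom`, `F^2` is the kernel of the Abel-Jacobi map;
2. `F^(j+1) CH^j(X) = 0`;
3. `Γ_* F^ν CH^j(X) ⊆ F^ν CH^i(Y)` for all classes `Γ` on `X × Y` of codimension `dim X + i - j`;
4. `Γ_* F^ν CH^j(X) ⊆ F^(ν+1) CH^i(Y)` if moreover `[Γ]_*` is zero on `H^(2j-ν)(X)`. -/
structure IsBB (J : AJData H) (F : Filtration C) : Prop where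
  zero : ∀ (X : 𝒱.Obj) (j : ℕ) (x : C.A X), F.Mem j 0 x ↔ C.Deg j x
  one : ∀ (X : 𝒱.Obj) (j : ℕ) (x : C.A X), F.Mem j 1 x ↔ HomTriv H j x
  two : ∀ (X : 𝒱.Obj) (j : ℕ) (x : C.A X), F.Mem j 2 x ↔ J.Ker j x
  top : ∀ (X : 𝒱.Obj) (j : ℕ) (x : C.A X), F.Mem j (j + 1) x → x = 0
  corr : ∀ (X Y : 𝒱.Obj) (j i ν : ℕ) (Γ : C.A (X.prod Y)), C.Deg (X.dim + i - j) Γ →
    ∀ x, F.Mem j ν x → F.Mem i ν (C.act Γ x)
  graded : ∀ (X Y : 𝒱.Obj) (j i ν : ℕ) (Γ : C.A (X.prod Y)), C.Deg (X.dim + i - j) Γ →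
    Kills H Γ (2 * j - ν) → ∀ x, F.Mem j ν x → F.Mem i (ν + 1) (C.act Γ x)

/-- The filtration satisfies, for the variety `P` and its self-correspondences, the conditions 1, 2, 3
of a Bloch-Beilinson filtration, and the condition 4 for the self-correspondences of degree zero, that
is, of codimension `dim P`. -/
structure IsLocalBB (J : AJData H) (P : 𝒱.Obj) (F : Filtration C) : Prop where
  zero : ∀ (j : ℕ) (x : C.A P), F.Mem j 0 x ↔ C.Deg j x
  one : ∀ (j : ℕ) (x : C.A P), F.Mem j 1 x ↔ HomTriv H j x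
  two : ∀ (j : ℕ) (x : C.A P), F.Mem j 2 x ↔ J.Ker j x
  top : ∀ (j : ℕ) (x : C.A P), F.Mem j (j + 1) x → x = 0
  corr : ∀ (j i ν : ℕ) (Γ : C.A (P.prod P)), C.Deg (P.dim + i - j) Γ →
    ∀ x, F.Mem j ν x → F.Mem i ν (C.act Γ x)
  graded : ∀ (j ν : ℕ) (Γ : C.A (P.prod P)), C.Deg P.dim Γ →
    Kills H Γ (2 * j - ν) → ∀ x, F.Mem j ν x → F.Mem j (ν + 1) (C.act Γ x)

/-- `run Γ z n = (Γ (n+1))_* (Γ n)_* … (Γ 2)_* z`, for self-correspondences `Γ 2, Γ 3, …` of `P`. -/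
noncomputable def run {P : 𝒱.Obj} (Γ : ℕ → C.A (P.prod P)) (z : C.A P) : ℕ → C.A P
  | 0 => z
  | n + 1 => C.act (Γ (n + 2)) (run Γ z n)

/-- The vanishing condition for the variety `P`. Let `2 ≤ j ≤ m`, let `z` be a class of codimension
`m` in the kernel of the Abel-Jacobi map, let `Γ 2, …, Γ j` be self-correspondences of `P` of degree
zero such that `Γ ν` acts as zero on `H^(2m-ν)(P)`, and let `Δ` be a self-correspondence which lowers
the codimension from `m` to `j`. Then `Δ_* (Γ j)_* … (Γ 2)_* z = 0` in `CH^j(P)`. -/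
def Vanishing (J : AJData H) (P : 𝒱.Obj) : Prop :=
  ∀ (j m : ℕ), 2 ≤ j → j ≤ m → ∀ (z : C.A P) (Γ : ℕ → C.A (P.prod P)) (Δ : C.A (P.prod P)),
    J.Ker m z → (∀ ν, 2 ≤ ν → ν ≤ j → C.Deg P.dim (Γ ν) ∧ Kills H (Γ ν) (2 * m - ν)) →
    C.Deg (P.dim + j - m) Δ → C.act Δ (run Γ z (j - 1)) = 0

/-- `P` dominates `X`: there are a morphism `π : P ⟶ X` and a class `c` on `P` such that
`π_* c = [X]`. For smooth projective varieties and Chow groups with rational coefficients this means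
that `π` is surjective. -/
def Dominates (C : TheoryData.{0, v, 0} 𝒱 ℚ) (P X : 𝒱.Obj) : Prop :=
  ∃ (π : P ⟶ X) (c : C.A P), C.Deg (P.dim - X.dim) c ∧ C.down π c = 1

end Run7.h460.BB
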