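import Pool.Agent.Run7.h460.BB.Main

set_option autoImplicit false
set_option linter.unusedSectionVars false
set_option linter.unusedVariables false

/-!
# Existence of Bloch-Beilinson filtrations: transport of the chains to one variety
-/

open CategoryTheory AlgebraicGeometry TensorProduct

universe v

namespace Run7.h460.BB

open Pool.Agent.H914 Pool.Agent.H914.VarClass Pool.Agent.H914.VarClass.Obj
open Pool.Agent.W492.BB hiding IsBB

variable {𝒱 : VarClass ℂ} {C : TheoryData.{0, v, 0} 𝒱 ℚ} {H : WeilTheoryData.{0, v, 0} C ℚ}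
  [hC : IsChow C] [hH : IsWeil H]

section dom

include hC

lemma dom_trans {P Q R : 𝒱.Obj} (h : Dominates C P Q) (h' : Dominates C Q R) :
    Dominates C P R := by
  obtain ⟨π, c, hc, h1⟩ := h
  obtain ⟨σ, d, hd, h2⟩ := h'
  refine ⟨π ≫ σ, c * C.pull π d, deg_cast (by ring) (C.mul_mem hc (C.pull_mem π hd)), ?_⟩
  have h3 : C.push π c = 1 := h1
  have h4 : C.push σ d = 1 := h2
  show C.push (π ≫ σ) _ = 1
  rw [C.push_comp, C.proj_right, h3, one_mul, h4]

lemma dom_fst (X Y : 𝒱.Obj) : Dominates C (X.prod Y) X := by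
  obtain ⟨a, ha, h1, -⟩ := exists_deg_one C Y
  refine ⟨fst X Y, C.pull (snd X Y) a, deg_cast ?_ (C.pull_mem _ ha), h1 X⟩
  rw [dim_prod]
  push_cast
  ring

lemma dom_snd (X Y : 𝒱.Obj) : Dominates C (X.prod Y) Y := by
  obtain ⟨a, ha, -, h1⟩ := exists_deg_one C X
  refine ⟨snd X Y, C.pull (fst X Y) a, deg_cast ?_ (C.pull_mem _ ha), h1 Y⟩
  rw [dim_prod]
  push_cast
  ring

end dom

lemma exists_dim (h : ∃ T : 𝒱.Obj, T.dim = 1) (n : ℕ) : ∃ T : 𝒱.Obj, T.dim = n + 1 := by
  obtain ⟨T, hT⟩ := h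
  induction n with
  | zero => exact ⟨T, hT⟩
  | succ n ih =>
    obtain ⟨S, hS⟩ := ih
    exact ⟨S.prod T, by rw [dim_prod, hS, hT]⟩

variable (H) in
include hC hH in
/-- The Chow groups of `X` are embedded into those of a variety which dominates `X × T`. -/
lemma lift_exists {X T P : 𝒱.Obj} {m i : ℕ} (hT : (T.dim : ℤ) = m - i)
    (hP : Dominates C P (X.prod T)) :
    ∃ (lam : C.A (X.prod P)) (rho : C.A (P.prod X)), C.Deg (X.dim + m - i) lam ∧
      C.Deg (P.dim + i - m) rho ∧ ∀ y, C.act rho (C.act lam y) = y := by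
  obtain ⟨π, c, hc, h1⟩ := hP
  obtain ⟨t, ht, h2, -⟩ := exists_deg_one C T
  have r1 : Realised H X P _ _ _ :=
    ((Realised.pull (H := H) (fst X T)).comp (Realised.mul (H := H) (C.pull_mem (snd X T) ht))).comp
      (Realised.pull (H := H) π)
  have r2 : Realised H P X _ _ _ :=
    ((Realised.mul (H := H) hc).comp (Realised.push (H := H) π)).comp
      (Realised.push (H := H) (fst X T))
  obtain ⟨lam, g1, g2, -⟩ := r1
  obtain ⟨rho, g3, g4, -⟩ := r2
  refine ⟨lam, rho, deg_cast (by rw [hT]; ring) g1, deg_cast ?_ g3, fun y => ?_⟩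
  · rw [dim_prod]
    push_cast
    rw [hT]
    ring
  · have h3 : C.act lam y = C.pull π (C.pull (snd X T) t * C.pull (fst X T) y) := g2 y
    have h4 : C.act rho (C.act lam y) = C.push (fst X T) (C.push π (c * C.act lam y)) := g4 _
    have h5 : C.push π c = 1 := h1
    rw [h4, h3, C.proj_right, h5, one_mul, C.proj_right, h2, one_mul]

variable (H) in
include hC hH in
/-- The pull-back to a variety which dominates `X` is injective. -/
lemma pull_exists {X P : 𝒱.Obj} (hP : Dominates C P X) :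
    ∃ th : C.A (X.prod P), C.Deg X.dim th ∧ ∀ y, C.act th y = 0 → y = 0 := by
  obtain ⟨π, c, hc, h1⟩ := hP
  obtain ⟨th, g1, g2, -⟩ := Realised.pull (H := H) π
  refine ⟨th, deg_cast (by ring) g1, fun y hy => ?_⟩
  have h5 : C.push π c = 1 := h1
  rw [g2] at hy
  have h6 : C.push π (c * C.pull π y) = y := by rw [C.proj_right, h5, one_mul]
  rw [← h6, hy, mul_zero, map_zero]

/-- The classes in `CH^m(P)` which are obtained from the kernel of the Abel-Jacobi map by
self-correspondences of degree zero, the `ν`-th of which acts as zero on `H^(2m-ν)(P)`. -/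
inductive Ev (J : AJData H) (m : ℕ) (P : 𝒱.Obj) : ℕ → C.A P → Prop
  | nil (z : C.A P) (hz : J.Ker m z) : Ev J m P 2 z
  | cons (ν : ℕ) (y : C.A P) (Γ : C.A (P.prod P)) (hy : Ev J m P ν y) (hΓ : C.Deg P.dim Γ)
      (hk : Kills H Γ (2 * m - ν)) : Ev J m P (ν + 1) (C.act Γ y)

lemma run_congr {P : 𝒱.Obj} (Γ Γ' : ℕ → C.A (P.prod P)) (z : C.A P) :
    ∀ n : ℕ, (∀ μ, μ < n + 2 → Γ μ = Γ' μ) → run Γ z n = run Γ' z n := by
  intro n
  induction n with
  | zero => intro _; rfl
  | succ n ih =>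
    intro h
    rw [run, run, ih fun μ hμ => h μ (by omega), h (n + 2) (by omega)]

lemma ev_run {J : AJData H} {m : ℕ} {P : 𝒱.Obj} {ν : ℕ} {y : C.A P} (h : Ev J m P ν y) :
    2 ≤ ν ∧ ∃ (z : C.A P) (Γ : ℕ → C.A (P.prod P)), J.Ker m z ∧
      (∀ μ, 2 ≤ μ → μ < ν → C.Deg P.dim (Γ μ) ∧ Kills H (Γ μ) (2 * m - μ)) ∧
      run Γ z (ν - 2) = y := by
  classical
  induction h with
  | nil z hz => exact ⟨le_rfl, z, fun _ => 0, hz, fun μ h1 h2 => by omega, rfl⟩
  | cons ν y Δ hy hΔ hk ih =>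
    obtain ⟨h1, z, Γ, h2, h3, h4⟩ := ih
    refine ⟨by omega, z, Function.update Γ ν Δ, h2, fun μ h5 h6 => ?_, ?_⟩
    · by_cases h7 : μ = ν
      · subst h7
        rw [Function.update_self]
        exact ⟨hΔ, hk⟩
      · rw [Function.update_of_ne h7]
        exact h3 μ h5 (by omega)
    · obtain ⟨n, rfl⟩ : ∃ n, ν = n + 2 := ⟨ν - 2, by omega⟩
      have e : n + 2 + 1 - 2 = n + 1 := by omega
      rw [e, run, Function.update_self]
      have e2 : n + 2 - 2 = n := by omega
      rw [e2] at h4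
      rw [← h4]
      congr 1
      refine run_congr _ _ _ _ fun μ hμ => ?_
      rw [Function.update_of_ne (by omega)]

section transport

variable {J : AJData H} [hJ : IsAJ J]

include hC hH hJ in
/-- The transport of a chain to all varieties which dominate a certain product. -/
lemma transport (hT : ∃ T : 𝒱.Obj, T.dim = 1) {m ν : ℕ} {X : 𝒱.Obj} {i : ℕ} {x : C.A X}
    (h : Ch J m ν X i x) : ∃ Q : 𝒱.Obj, ∀ P, Dominates C P Q →
      ∃ (lam : C.A (X.prod P)) (rho : C.A (P.prod X)), C.Deg (X.dim + m - i) lam ∧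
        C.Deg (P.dim + i - m) rho ∧ (∀ y, C.act rho (C.act lam y) = y) ∧
        Ev J m P ν (C.act lam x) := by
  induction h with
  | nil X i x hi hx =>
    obtain ⟨T, hTd⟩ := exists_dim hT (m - i - 1)
    have hTd' : (T.dim : ℤ) = m - i := by omega
    refine ⟨X.prod T, fun P hP => ?_⟩
    obtain ⟨lam, rho, h1, h2, h3⟩ := lift_exists H hTd' hP
    exact ⟨lam, rho, h1, h2, h3, .nil _ (ker_act h1 hx)⟩
  | cons ν Z X j i z Γ hz hi hΓ hk ih =>
    obtain ⟨Q, hQ⟩ := ih
    obtain ⟨T, hTd⟩ := exists_dim hT (m - i - 1)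
    have hTd' : (T.dim : ℤ) = m - i := by omega
    refine ⟨Q.prod (X.prod T), fun P hP => ?_⟩
    obtain ⟨lam', rho', g1, g2, g3, g4⟩ := hQ P (dom_trans hP (dom_fst Q (X.prod T)))
    obtain ⟨lam, rho, h1, h2, h3⟩ := lift_exists H hTd' (dom_trans hP (dom_snd Q (X.prod T)))
    refine ⟨lam, rho, h1, h2, h3, ?_⟩
    have r1 : Realised H P Z ((j : ℤ) - m) (C.act rho') (H.act (H.cl rho')) :=
      Realised.of (deg_cast (by ring) g2)
    have r2 : Realised H Z X ((i : ℤ) - j) (C.act Γ) (H.act (H.cl Γ)) :=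
      Realised.of (deg_cast (by ring) hΓ)
    have r3 : Realised H X P ((m : ℤ) - i) (C.act lam) (H.act (H.cl lam)) :=
      Realised.of (deg_cast (by ring) h1)
    obtain ⟨Θ, t1, t2, t3⟩ := (r1.comp r2).comp r3
    have h4 : C.act Θ (C.act lam' z) = C.act lam (C.act Γ z) := by
      have h5 : C.act Θ (C.act lam' z) = C.act lam (C.act Γ (C.act rho' (C.act lam' z))) := t2 _
      rw [h5, g3]
    rw [← h4]
    refine .cons ν _ Θ g4 (deg_cast (by ring) t1) fun a ha => ?_
    have h5 : H.act (H.cl Θ) a = H.act (H.cl lam) (H.act (H.cl Γ) (H.act (H.cl rho') a)) := t3 a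
    have h6 : H.Deg (2 * j - ν) (H.act (H.cl rho') a) := by
      have h7 := actH_mem H (e := (j : ℤ) - m) (deg_cast (by ring) g2) ha
      have e : (2 * (m : ℤ) - ν) + 2 * ((j : ℤ) - m) = 2 * j - ν := by ring
      rw [e] at h7
      exact h7
    rw [h5, hk _ h6, TheoryData.act_map_zero]

end transport

end Run7.h460.BB
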