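import Pool.Agent.Run7.h460.BB.Defs

set_option autoImplicit false
set_option linter.unusedSectionVars false
set_option linter.unusedVariables false

/-!
# Existence of Bloch-Beilinson filtrations: reduction to one variety
-/

open CategoryTheory AlgebraicGeometry TensorProduct

universe v

namespace Run7.h460.BB

open Pool.Agent.H914 Pool.Agent.H914.VarClass Pool.Agent.H914.VarClass.Obj
open Pool.Agent.W492.BB hiding IsBB

variable {𝒱 : VarClass ℂ} {C : TheoryData.{0, v, 0} 𝒱 ℚ} {H : WeilTheoryData.{0, v, 0} C ℚ}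
  [hC : IsChow C] [hH : IsWeil H]

section basic

lemma deg_cast {X : 𝒱.Obj} {a b : ℤ} (h : a = b) {x : C.A X} (hx : C.Deg a x) : C.Deg b x := h ▸ hx

lemma act_deg {X Y : 𝒱.Obj} {j i : ℕ} {Γ : C.A (X.prod Y)} (hΓ : C.Deg (X.dim + i - j) Γ)
    {x : C.A X} (hx : C.Deg j x) : C.Deg i (C.act Γ x) := by
  have h1 : Γ ∈ C.gr (X.prod Y) (X.dim + ((i : ℤ) - j)) := deg_cast (by ring) hΓ
  exact deg_cast (by ring) (act_mem h1 hx)

lemma hom_smul {X : 𝒱.Obj} {x : C.A X} (q : ℚ) (h : H.cl x = 0) : H.cl (q • x) = 0 := by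
  rw [map_rat_smul H.cl q x, h, smul_zero]

variable (H) in
/-- `CH^j(X)_hom`, the homologically trivial classes of codimension `j`. -/
def hom (X : 𝒱.Obj) (j : ℕ) : Submodule ℚ (C.A X) where
  carrier := {x | HomTriv H j x}
  add_mem' := fun {x y} hx hy => ⟨(C.gr X j).add_mem hx.1 hy.1, by rw [map_add, hx.2, hy.2, add_zero]⟩
  zero_mem' := ⟨(C.gr X j).zero_mem, map_zero _⟩
  smul_mem' := fun q _ hx => ⟨(C.gr X j).smul_mem q hx.1, hom_smul q hx.2⟩

include hH in
lemma act_hom {X Y : 𝒱.Obj} {j i : ℕ} {Γ : C.A (X.prod Y)} (hΓ : C.Deg (X.dim + i - j) Γ)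
    {x : C.A X} (hx : x ∈ hom H X j) : C.act Γ x ∈ hom H Y i := by
  refine ⟨act_deg hΓ hx.1, ?_⟩
  rw [cl_act, hx.2, TheoryData.act_map_zero]

lemma kills_deg {X Y : 𝒱.Obj} {j i : ℕ} {Γ : C.A (X.prod Y)} (hΓ : C.Deg (X.dim + i - j) Γ)
    (hk : Kills H Γ (2 * j)) {x : C.A X} (hx : C.Deg j x) : C.act Γ x ∈ hom H Y i := by
  refine ⟨act_deg hΓ hx, ?_⟩
  rw [cl_act]
  exact hk _ (H.cl_mem hx)

variable {J : AJData H} [hJ : IsAJ J]

include hJ in
lemma rep_add {X : 𝒱.Obj} {j : ℕ} {x y : C.A X} {a b : HC H X} (hx : J.Rep j x a)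
    (hy : J.Rep j y b) : J.Rep j (x + y) (a + b) := by
  refine ⟨(hom H X j).add_mem hx.1 hy.1, (grC H X _).add_mem hx.2.1 hy.2.1, ?_⟩
  rw [hJ.add hx.1 hy.1, hx.2.2, hy.2.2]
  rfl

include hJ in
lemma ker_iff {X : 𝒱.Obj} {j : ℕ} {x : C.A X} : J.Ker j x ↔ J.Rep j x 0 := by
  constructor
  · rintro ⟨h1, h2⟩
    exact ⟨h1, (grC H X _).zero_mem, h2⟩
  · rintro ⟨h1, -, h2⟩
    exact ⟨h1, h2⟩

include hJ in
lemma ker_act {X Y : 𝒱.Obj} {j i : ℕ} {Γ : C.A (X.prod Y)} (hΓ : C.Deg (X.dim + i - j) Γ)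
    {x : C.A X} (hx : J.Ker j x) : J.Ker i (C.act Γ x) := by
  rw [ker_iff] at hx ⊢
  have h1 := hJ.natural hΓ hx
  rwa [map_zero] at h1

include hJ in
lemma hom_shift {X Y : 𝒱.Obj} {j i : ℕ} {Γ : C.A (X.prod Y)} (hΓ : C.Deg (X.dim + i - j) Γ)
    (hk : Kills H Γ (2 * j - 1)) {x : C.A X} (hx : x ∈ hom H X j) : J.Ker i (C.act Γ x) := by
  obtain ⟨a, ha⟩ := hJ.exists_rep hx
  have h1 : actC H Γ a = 0 := by
    have h2 : grC H X (2 * j - 1) ≤ LinearMap.ker (actC H Γ) := by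
      refine Submodule.span_le.2 fun b hb => ?_
      have hb' : b ∈ rat H X (2 * j - 1) := hb
      show actC H Γ b = 0
      unfold rat at hb'
      clear hb
      induction hb' using AddSubgroup.closure_induction with
      | mem b hb =>
        obtain ⟨c, hc, rfl⟩ := hb
        show (H.actL (H.cl Γ)).baseChange ℂ ((1 : ℂ) ⊗ₜ[ℚ] c) = (0 : ℂ ⊗[ℚ] H.A Y)
        rw [LinearMap.baseChange_tmul]
        have h3 : H.actL (H.cl Γ) c = 0 := hk c hc
        rw [h3, TensorProduct.tmul_zero]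
      | zero => exact map_zero _
      | add b c _ _ h1 h2 => rw [map_add, h1, h2, add_zero]
      | neg b _ h1 => rw [map_neg, h1, neg_zero]
    exact h2 ha.2.1
  rw [ker_iff, ← h1]
  exact hJ.natural hΓ ha

include hJ in
lemma hom_zero {X : 𝒱.Obj} {x : C.A X} (hx : x ∈ hom H X 0) : x = 0 := by
  obtain ⟨h1, h2⟩ := hx
  obtain ⟨q, rfl⟩ := hJ.chow_zero x (by simpa using h1)
  rw [map_rat_smul H.cl, map_one] at h2
  by_cases hq : q = 0
  · rw [hq, zero_smul]
  · exact absurd ((smul_eq_zero_iff_right hq).1 h2) (hJ.one_ne X)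

/-- the kernel of the Abel-Jacobi map -/
noncomputable def kerS (J : AJData H) [hJ : IsAJ J] (X : 𝒱.Obj) (j : ℕ) :
    Submodule ℚ (C.A X) where
  carrier := {x | J.Ker j x}
  add_mem' := fun {x y} hx hy => by
    show J.Ker j (x + y)
    have h1 := rep_add (ker_iff.1 hx) (ker_iff.1 hy)
    rw [add_zero] at h1
    exact ker_iff.2 h1
  zero_mem' := by
    obtain ⟨a, ha⟩ := hJ.exists_rep (hom H X j).zero_mem
    have h0 : J.aj X j 0 = 0 := by
      have h1 := hJ.add (hom H X j).zero_mem (hom H X j).zero_mem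
      rw [add_zero] at h1
      exact left_eq_add.1 h1
    exact ⟨(hom H X j).zero_mem, h0⟩
  smul_mem' := fun q x hx => by
    show J.Ker j (q • x)
    have h1 : q • (1 : C.A X) ∈ C.gr X 0 := (C.gr X 0).smul_mem q (C.one_mem X)
    obtain ⟨Γ, h2, h3, -⟩ := Realised.mul (H := H) h1
    have h4 : C.act Γ x = q • x := by
      have h5 : C.act Γ x = q • (1 : C.A X) * x := h3 x
      rw [h5, smul_mul_assoc, one_mul]
    rw [← h4]
    exact ker_act (deg_cast (by ring) h2) hx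

lemma mem_kerS {X : 𝒱.Obj} {j : ℕ} {x : C.A X} : x ∈ kerS J X j ↔ J.Ker j x := Iff.rfl

end basic

/-- The chains of correspondences which start in the kernel of an Abel-Jacobi map: the `ν`-th
correspondence, applied to a class in `CH^j(Z)`, acts as zero on `H^(2j-ν)(Z)`, and all codimensions
are less than `m`. -/
inductive Ch (J : AJData H) (m : ℕ) : ℕ → (X : 𝒱.Obj) → ℕ → C.A X → Prop
  | nil (X : 𝒱.Obj) (i : ℕ) (x : C.A X) (hi : i < m) (hx : J.Ker i x) : Ch J m 2 X i x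
  | cons (ν : ℕ) (Z X : 𝒱.Obj) (j i : ℕ) (z : C.A Z) (Γ : C.A (Z.prod X)) (hz : Ch J m ν Z j z)
      (hi : i < m) (hΓ : C.Deg (Z.dim + i - j) Γ) (hk : Kills H Γ (2 * j - ν)) :
      Ch J m (ν + 1) X i (C.act Γ z)

section chains

variable {J : AJData H}

omit hC hH in
lemma Ch.two_le {m ν : ℕ} {X : 𝒱.Obj} {i : ℕ} {x : C.A X} (h : Ch J m ν X i x) : 2 ≤ ν := by
  induction h with
  | nil => exact le_rfl
  | cons ν Z X j i z Γ hz hi hΓ hk ih => omega

omit hC hH in
lemma Ch.lt {m ν : ℕ} {X : 𝒱.Obj} {i : ℕ} {x : C.A X} (h : Ch J m ν X i x) : i < m := by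
  cases h with
  | nil X i x hi hx => exact hi
  | cons ν Z X j i z Γ hz hi hΓ hk => exact hi

omit hC hH in
lemma Ch.mono {m m' ν : ℕ} (hm : m ≤ m') {X : 𝒱.Obj} {i : ℕ} {x : C.A X} (h : Ch J m ν X i x) :
    Ch J m' ν X i x := by
  induction h with
  | nil X i x hi hx => exact .nil X i x (hi.trans_le hm) hx
  | cons ν Z X j i z Γ hz hi hΓ hk ih => exact .cons ν Z X j i z Γ ih (hi.trans_le hm) hΓ hk

variable [hJ : IsAJ J]

include hJ in
lemma Ch.deg {m ν : ℕ} {X : 𝒱.Obj} {i : ℕ} {x : C.A X} (h : Ch J m ν X i x) : C.Deg i x := by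
  induction h with
  | nil X i x hi hx => exact hx.1.1
  | cons ν Z X j i z Γ hz hi hΓ hk ih => exact act_deg hΓ ih

include hJ in
lemma Ch.corr {m ν : ℕ} {X : 𝒱.Obj} {i : ℕ} {x : C.A X} (h : Ch J m ν X i x) :
    ∀ {Y : 𝒱.Obj} {i' : ℕ} {Δ : C.A (X.prod Y)}, C.Deg (X.dim + i' - i) Δ →
    Ch J (max m (i' + 1)) ν Y i' (C.act Δ x) := by
  induction h with
  | nil X i x hi hx =>
    intro Y i' Δ hΔ
    exact .nil _ _ _ (by omega) (ker_act hΔ hx)
  | cons ν Z X j i z Γ hz hi hΓ hk ih =>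
    intro Y i' Δ hΔ
    have r1 : Realised H Z X ((i : ℤ) - j) (C.act Γ) (H.act (H.cl Γ)) :=
      Realised.of (deg_cast (by ring) hΓ)
    have r2 : Realised H X Y ((i' : ℤ) - i) (C.act Δ) (H.act (H.cl Δ)) :=
      Realised.of (deg_cast (by ring) hΔ)
    obtain ⟨Θ, h1, h2, h3⟩ := r1.comp r2
    have h4 : C.act Θ z = C.act Δ (C.act Γ z) := h2 z
    rw [← h4]
    refine .cons ν Z Y j i' z Θ (hz.mono (le_max_left _ _)) (by omega)
      (deg_cast (by ring) h1) fun a ha => ?_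
    have h5 : H.act (H.cl Θ) a = H.act (H.cl Δ) (H.act (H.cl Γ) a) := h3 a
    rw [h5, hk a ha, TheoryData.act_map_zero]

/-- the filtrations which are defined by the chains -/
noncomputable def stp (J : AJData H) (X : 𝒱.Obj) (i : ℕ) : ℕ → Submodule ℚ (C.A X)
  | 0 => C.gr X i
  | 1 => hom H X i
  | ν + 2 => Submodule.span ℚ {x | ∃ m, Ch J m (ν + 2) X i x}

include hJ in
lemma stp_corr (X Y : 𝒱.Obj) (j i ν : ℕ) (Γ : C.A (X.prod Y)) (hΓ : C.Deg (X.dim + i - j) Γ)
    (x : C.A X) (hx : x ∈ stp J X j ν) : C.act Γ x ∈ stp J Y i ν := by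
  match ν, hx with
  | 0, hx => exact act_deg hΓ hx
  | 1, hx => exact act_hom hΓ hx
  | ν + 2, hx =>
    have h1 : stp J X j (ν + 2) ≤ (stp J Y i (ν + 2)).comap (C.actL Γ) := by
      refine Submodule.span_le.2 ?_
      rintro x ⟨m, hm⟩
      exact Submodule.subset_span ⟨_, hm.corr hΓ⟩
    exact h1 hx

include hJ in
lemma stp_graded (X Y : 𝒱.Obj) (j i ν : ℕ) (Γ : C.A (X.prod Y)) (hΓ : C.Deg (X.dim + i - j) Γ)
    (hk : Kills H Γ (2 * j - ν)) (x : C.A X) (hx : x ∈ stp J X j ν) :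
    C.act Γ x ∈ stp J Y i (ν + 1) := by
  match ν, hx, hk with
  | 0, hx, hk =>
    refine kills_deg hΓ ?_ hx
    have e : (2 * (j : ℤ) - (0 : ℕ)) = 2 * j := by push_cast; ring
    rw [e] at hk
    exact hk
  | 1, hx, hk =>
    refine Submodule.subset_span ⟨i + 1, .nil _ _ _ (Nat.lt_succ_self i) (hom_shift hΓ ?_ hx)⟩
    have e : (2 * (j : ℤ) - (1 : ℕ)) = 2 * j - 1 := by push_cast; ring
    rw [e] at hk
    exact hk
  | ν + 2, hx, hk =>
    have h1 : stp J X j (ν + 2) ≤ (stp J Y i (ν + 2 + 1)).comap (C.actL Γ) := by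
      refine Submodule.span_le.2 ?_
      rintro x ⟨m, hm⟩
      exact Submodule.subset_span ⟨max m (i + 1), .cons _ _ _ _ _ _ _ (hm.mono (le_max_left _ _))
        (by omega) hΓ hk⟩
    exact h1 hx

include hJ in
lemma stp_two (X : 𝒱.Obj) (i : ℕ) (x : C.A X) : x ∈ stp J X i 2 ↔ J.Ker i x := by
  rw [← mem_kerS]
  constructor
  · intro hx
    have h1 : stp J X i 2 ≤ kerS J X i := by
      refine Submodule.span_le.2 ?_
      rintro x ⟨m, hm⟩
      generalize h2 : (0 + 2 : ℕ) = n at hm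
      cases hm with
      | nil X i x hi hx => exact mem_kerS.2 hx
      | cons ν Z X j i z Γ hz hi hΓ hk =>
        have := hz.two_le
        omega
    exact h1 hx
  · intro hx
    exact Submodule.subset_span ⟨i + 1, .nil _ _ _ (Nat.lt_succ_self i) (mem_kerS.1 hx)⟩

/-- the filtrations which are defined by the chains -/
noncomputable def fil (J : AJData H) [hJ : IsAJ J] : Filtration C where
  F := fun X i n => stp J X i n
  le_gr := by
    intro X i n
    match n with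
    | 0 => exact le_rfl
    | 1 => exact fun x hx => hx.1
    | n + 2 =>
      refine Submodule.span_le.2 ?_
      rintro x ⟨m, hm⟩
      exact hm.deg
  anti := by
    intro X i n
    match n with
    | 0 => exact fun x hx => hx.1
    | 1 => exact fun x hx => ((stp_two X i x).1 hx).1
    | n + 2 =>
      refine Submodule.span_le.2 ?_
      rintro x ⟨m, hm⟩
      generalize h2 : (n + 1 + 2 : ℕ) = N at hm
      cases hm with
      | nil X i x hi hx => omega
      | cons ν Z X j i z Γ hz hi hΓ hk =>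
        obtain rfl : ν = n + 2 := by omega
        exact stp_corr Z X j i (n + 2) Γ hΓ z (Submodule.subset_span ⟨m, hz⟩)

/-- The filtrations satisfy all conditions except the condition 2. -/
lemma fil_bb (htop : ∀ (X : 𝒱.Obj) (j : ℕ) (x : C.A X), x ∈ stp J X j (j + 1) → x = 0) :
    IsBB J (fil J) where
  zero := fun X j x => Iff.rfl
  one := fun X j x => Iff.rfl
  two := fun X j x => stp_two X j x
  top := fun X j x hx => htop X j x hx
  corr := fun X Y j i ν Γ hΓ x hx => stp_corr X Y j i ν Γ hΓ x hx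
  graded := fun X Y j i ν Γ hΓ hk x hx => stp_graded X Y j i ν Γ hΓ hk x hx

end chains

end Run7.h460.BB
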